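import Mathlib
import Pool.Agent.Helper37.DvrPoints
import Pool.Agent.Helper37.DvrExt
import Pool.Agent.Helper37.DvrPadic

/-!
# Dynamical Mordell-Lang for a whole congruence class of endomorphisms of projective space
-/

set_option autoImplicit false

namespace Pool.Agent.Helper37.Aside.CongruenceClassDML

open MvPolynomial Pool.Agent.Helper37

/-- For all `N`, `d` and every prime `p` not dividing `d` there is an integral tuple `F₀` of forms
of degree `d` such that every integral tuple `F` of forms of degree `d` congruent to `F₀` modulo `p`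
defines an endomorphism of complex projective `N`-space, and the return set of every closed
subvariety (over `ℂ`) along the orbit of every point whose coordinates lie in a field `K` of finite
degree over a purely transcendental extension of `ℚ`, the degree not being a sum of prime divisors
of `N + 1`, is a finite union of arithmetic progressions. -/
theorem result (N d p : ℕ) (hp : p.Prime) (hpd : ¬ p ∣ d) :
    ∃ F₀ : Fin (N + 1) → MvPolynomial (Fin (N + 1)) ℤ, (∀ i, (F₀ i).IsHomogeneous d) ∧
      ∀ F : Fin (N + 1) → MvPolynomial (Fin (N + 1)) ℤ, (∀ i, (F i).IsHomogeneous d) →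
        (∀ i, MvPolynomial.map (Int.castRingHom (ZMod p)) (F i)
          = MvPolynomial.map (Int.castRingHom (ZMod p)) (F₀ i)) →
        (∀ x : Fin (N + 1) → ℂ,
          (∀ i, eval x (MvPolynomial.map (Int.castRingHom ℂ) (F i)) = 0) → x = 0) ∧
        ∀ (r : ℕ) (t : Fin r → ℂ), AlgebraicIndependent ℚ t →
        ∀ K : IntermediateField (IntermediateField.adjoin ℚ (Set.range t)) ℂ,
          FiniteDimensional (IntermediateField.adjoin ℚ (Set.range t)) K →
          Module.finrank (IntermediateField.adjoin ℚ (Set.range t)) K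
            ∉ AddSubmonoid.closure {l : ℕ | l.Prime ∧ l ∣ N + 1} →
        ∀ a : Fin (N + 1) → ℂ, (∀ i, a i ∈ K) → a ≠ 0 →
        ∀ S : Set (MvPolynomial (Fin (N + 1)) ℂ), (∀ g ∈ S, ∃ e : ℕ, g.IsHomogeneous e) →
        ∃ T : Finset (ℕ × ℕ),
          {n : ℕ | ∀ g ∈ S, eval ((fun (x : Fin (N + 1) → ℂ) (i : Fin (N + 1)) =>
              eval x (MvPolynomial.map (Int.castRingHom ℂ) (F i)))^[n] a) g = 0}
            = {n : ℕ | ∃ q ∈ T, ∃ m : ℕ, n = q.1 * m + q.2} := by
  classical
  have hpf : Fact p.Prime := ⟨hp⟩
  have hd0 : d ≠ 0 := by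
    rintro rfl
    exact hpd (dvd_zero p)
  obtain ⟨f, hf, hfm, hirr⟩ := exists_irreducible_mod p (N + 1) (Nat.succ_ne_zero N)
  refine ⟨powForm (N + 1) f d, powForm_isHomogeneous (N + 1) f d, ?_⟩
  intro F hh hF
  refine ⟨?_, ?_⟩
  · intro x hx
    refine lift_zero p f hf hfm d hd0 hirr F hh hF x ?_
    intro i
    rw [← eval_map_eq_ev]
    exact hx i
  · intro r t ht K hK hdeg a haK ha S hS
    obtain ⟨ι⟩ := exists_embedding_padic p r t ht
    obtain ⟨R, _, _, _, _, _, hFrac, hpR, e, hcard, hcop⟩ := exists_dvr_above p
      (R₀ := padicRing p ι) (K := K)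
      (p_mem_maximalIdeal p ι) (card_residueField_padicRing p ι) (N + 1) hdeg
    have hfin : Finite (IsLocalRing.ResidueField R) := Nat.finite_of_card_ne_zero (by
      rw [hcard]; exact pow_ne_zero _ hp.ne_zero)
    have hpk : (p : IsLocalRing.ResidueField R) = 0 := by
      have := (IsLocalRing.residue_eq_zero_iff (p : R)).2 hpR
      simpa using this
    have : CharP (IsLocalRing.ResidueField R) p := charP_of_natCast_eq_zero p hp _ hpk
    have hirrk := irreducible_map_of_card p f hf hirr (IsLocalRing.ResidueField R) e hcard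
      (by rw [hfm]; exact hcop)
    let _ : Algebra R ℂ := ((algebraMap K ℂ).comp (algebraMap R K)).toAlgebra
    have hRL : Function.Injective (algebraMap R ℂ) :=
      (algebraMap K ℂ).injective.comp (IsFractionRing.injective R K)
    obtain ⟨b, hb⟩ := IsLocalization.exist_integer_multiples_of_finite (nonZeroDivisors R)
      (fun i => (⟨a i, haK i⟩ : K))
    choose a' ha' using hb
    have hb0 : algebraMap R ℂ (b : R) ≠ 0 := by
      intro h
      exact nonZeroDivisors.coe_ne_zero b (hRL (by rw [h, map_zero]))
    have hav : ∀ i, algebraMap R ℂ (a' i) = algebraMap R ℂ (b : R) * a i := by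
      intro i
      have h1 : algebraMap K ℂ (algebraMap R K (a' i))
          = algebraMap K ℂ ((b : R) • (⟨a i, haK i⟩ : K)) := by rw [ha' i]
      rw [Algebra.smul_def, map_mul] at h1
      exact h1
    have hav' : a = fun i => (algebraMap R ℂ (b : R))⁻¹ * algebraMap R ℂ (a' i) := by
      funext i
      rw [hav i, inv_mul_cancel_left₀ hb0]
    have ha'0 : a' ≠ 0 := by
      rintro rfl
      apply ha
      rw [hav']
      funext i
      simp
    rw [hav']
    exact dml_dvr p f hf hfm d hd0 hpd F hh hF hpR hirrk hRL a' ha'0 _ (inv_ne_zero hb0) S hS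

end Pool.Agent.Helper37.Aside.CongruenceClassDML
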